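import Mathlib
import Pool.Agent.Lib.MP_fda97a_al.Final

namespace Pool.Agent.Results.MP_fda97a_al.CommutatorSpectrum

open Matrix

/-- The maps `φ : M_n(ℂ) → M_n(ℂ)` with `σ([φ(T), φ(S)]) = σ([T, S])` for all `T, S` are exactly
the maps `φ(T) = ε(T) A T A⁻¹ + η(T) I` and `φ(T) = i ε(T) A Tᵗ A⁻¹ + η(T) I`, with `A` invertible,
`η` an arbitrary scalar function, and `ε` a function with values in `{1, -1}` that is constant on
the matrices that satisfy no equation `T² = a T + b I`. -/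
theorem result (n : ℕ) (φ : Matrix (Fin n) (Fin n) ℂ → Matrix (Fin n) (Fin n) ℂ) :
    (∀ T S, spectrum ℂ (φ T * φ S - φ S * φ T) = spectrum ℂ (T * S - S * T)) ↔
      ∃ (A : (Matrix (Fin n) (Fin n) ℂ)ˣ) (ε η : Matrix (Fin n) (Fin n) ℂ → ℂ),
        (∀ T, ε T = 1 ∨ ε T = -1) ∧
        (∀ T S : Matrix (Fin n) (Fin n) ℂ,
          (¬ ∃ a b : ℂ, T * T = a • T + b • 1) → (¬ ∃ a b : ℂ, S * S = a • S + b • 1) →
            ε T = ε S) ∧
        ((∀ T, φ T = ε T • ((A : Matrix (Fin n) (Fin n) ℂ) * T *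
            ((A⁻¹ : (Matrix (Fin n) (Fin n) ℂ)ˣ) : Matrix (Fin n) (Fin n) ℂ)) + η T • 1) ∨
         (∀ T, φ T = (Complex.I * ε T) • ((A : Matrix (Fin n) (Fin n) ℂ) * Tᵀ *
            ((A⁻¹ : (Matrix (Fin n) (Fin n) ℂ)ˣ) : Matrix (Fin n) (Fin n) ℂ)) + η T • 1)) :=
  ⟨fun H => Pool.Agent.Lib.MP_fda97a_al.desc_of_preserves H,
    fun h T S => Pool.Agent.Lib.MP_fda97a_al.preserves_of_desc h T S⟩

end Pool.Agent.Results.MP_fda97a_al.CommutatorSpectrum
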